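import Pool.Agent.Helper70.MLF.HWb
import Pool.Agent.Helper90.MLF.HWa

/-!
# Project MLF, block HWL
-/

set_option autoImplicit false

namespace Pool.Agent.MLF

open Polynomial

/-- **BLOCK HWL** -/
theorem hWL : StmtHWL := by
  refine hWL_of fun hST k _ _ ℓ hℓ hmu fs hf hd => ?_
  exact local_pow hST hℓ hmu fs (PerfectField.separable_iff_squarefree.2 hf) hd

end Pool.Agent.MLF
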