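import Pool.Agent.Helper13.MLF.Defs
import Pool.Agent.Helper97.MP.HWb

/-!
# Project MLF, block HWL: points of the twists over the projective line

`decompL`, `form_hL`, `crit_valueL`, and `StmtHWL` from the arithmetic statement `StmtLocPow`.
-/

set_option autoImplicit false
set_option maxHeartbeats 1000000

namespace Pool.Agent.MLF

open Polynomial NumberField IsDedekindDomain
open Pool.Agent.HG (Pr nm)
open Pool.Agent.LN (IsRam)
open Pool.Agent.ML (HasMu)
open Pool.Agent.Helper97.L (exists_quot exists_quot')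

/-- `∏ f_i ^ (i + 1)` -/
noncomputable def prodL {k : Type} [Field k] {m : ℕ} (fs : Fin m → k[X]) : k[X] :=
  ∏ i, fs i ^ ((i : ℕ) + 1)

theorem decompL {k : Type} [Field k] (m : ℕ) (hm : 1 ≤ m) (p : k[X]) (hp : p ≠ 0) :
    ∃ (fs : Fin m → k[X]) (g : k[X]), Squarefree (∏ i, fs i) ∧ g ≠ 0 ∧
      p = prodL fs * g ^ (m + 1) := by
  classical
  revert hp
  refine UniqueFactorizationMonoid.induction_on_coprime (P := fun p : k[X] => p ≠ 0 →
    ∃ (fs : Fin m → k[X]) (g : k[X]), Squarefree (∏ i, fs i) ∧ g ≠ 0 ∧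
      p = prodL fs * g ^ (m + 1)) p ?_ ?_ ?_ ?_
  · intro h; exact absurd rfl h
  · intro x hx _
    obtain ⟨j⟩ : Nonempty (Fin m) := ⟨⟨0, by omega⟩⟩
    refine ⟨fun i => if (i : ℕ) = 0 then x else 1, 1, ?_, one_ne_zero, ?_⟩
    · rw [Finset.prod_eq_single (⟨0, by omega⟩ : Fin m)]
      · simpa using hx.squarefree
      · intro b _ hb
        rw [if_neg]
        intro h0
        exact hb (Fin.ext h0)
      · intro h; exact absurd (Finset.mem_univ _) h
    · rw [one_pow, mul_one, prodL, Finset.prod_eq_single (⟨0, by omega⟩ : Fin m)]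
      · simp
      · intro b _ hb
        rw [if_neg, one_pow]
        intro h0
        exact hb (Fin.ext h0)
      · intro h; exact absurd (Finset.mem_univ _) h
  · intro q n hq _
    have hq0 : q ≠ 0 := hq.ne_zero
    obtain ⟨a, b, hab, hb⟩ : ∃ a b : ℕ, n = b + (m + 1) * a ∧ b < m + 1 :=
      ⟨n / (m + 1), n % (m + 1), (Nat.mod_add_div n (m + 1)).symm, Nat.mod_lt _ (by omega)⟩
    refine ⟨fun i => if (i : ℕ) + 1 = b then q else 1, q ^ a, ?_, pow_ne_zero _ hq0, ?_⟩
    · by_cases hb0 : b = 0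
      · have : (∏ i : Fin m, if (i : ℕ) + 1 = b then q else 1) = 1 := by
          refine Finset.prod_eq_one fun i _ => if_neg (by omega)
        rw [this]
        exact isUnit_one.squarefree
      · rw [Finset.prod_eq_single (⟨b - 1, by omega⟩ : Fin m)]
        · have h1 : b - 1 + 1 = b := by omega
          simp only [h1, if_true]
          exact hq.irreducible.squarefree
        · intro c _ hc
          rw [if_neg]
          intro h0
          apply hc
          apply Fin.ext
          show (c : ℕ) = b - 1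
          omega
        · intro h; exact absurd (Finset.mem_univ _) h
    · have hP : prodL (fun i : Fin m => if (i : ℕ) + 1 = b then q else 1) = q ^ b := by
        rw [prodL]
        by_cases hb0 : b = 0
        · rw [hb0, pow_zero]
          refine Finset.prod_eq_one fun i _ => ?_
          rw [if_neg (by omega), one_pow]
        · rw [Finset.prod_eq_single (⟨b - 1, by omega⟩ : Fin m)]
          · have h1 : b - 1 + 1 = b := by omega
            simp only [h1, if_true]
          · intro c _ hc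
            rw [if_neg, one_pow]
            intro h0
            apply hc
            apply Fin.ext
            show (c : ℕ) = b - 1
            omega
          · intro h; exact absurd (Finset.mem_univ _) h
      rw [hP, hab, pow_add, pow_mul, ← pow_mul, mul_comm (m + 1) a, pow_mul]
  · intro x y hxy hx hy hxy0
    have hx0 : x ≠ 0 := left_ne_zero_of_mul hxy0
    have hy0 : y ≠ 0 := right_ne_zero_of_mul hxy0
    obtain ⟨fs, g, hf, hg, hfg⟩ := hx hx0
    obtain ⟨fs', g', hf', hg', hfg'⟩ := hy hy0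
    have hdvd : ∀ fs : Fin m → k[X], (∏ i, fs i) ∣ prodL fs := fun fs =>
      Finset.prod_dvd_prod_of_dvd _ _ fun i _ => dvd_pow_self _ (Nat.succ_ne_zero _)
    refine ⟨fun i => fs i * fs' i, g * g', ?_, mul_ne_zero hg hg', ?_⟩
    · rw [Finset.prod_mul_distrib, squarefree_mul_iff]
      refine ⟨?_, hf, hf'⟩
      have h1 : (∏ i, fs i) ∣ x := (hdvd fs).trans (hfg ▸ dvd_mul_right _ _)
      have h2 : (∏ i, fs' i) ∣ y := (hdvd fs').trans (hfg' ▸ dvd_mul_right _ _)
      exact fun d hd hd' => hxy (hd.trans h1) (hd'.trans h2)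
    · have h3 : prodL (fun i => fs i * fs' i) = prodL fs * prodL fs' := by
        rw [prodL, prodL, prodL, ← Finset.prod_mul_distrib]
        exact Finset.prod_congr rfl fun i _ => mul_pow _ _ _
      rw [h3, mul_pow]
      calc x * y = (prodL fs * g ^ (m + 1)) * (prodL fs' * g' ^ (m + 1)) := by rw [← hfg, ← hfg']
        _ = _ := by ring

/-- the form of `h` -/
theorem form_hL {k K0 : Type} [Field k] [NumberField k] [Field K0] [Algebra k K0] {h x : K0}
    {ℓ : ℕ} (hℓ : ℓ.Prime) (hG : Pool.Agent.LN.GoodCurve k ℓ h)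
    (hgen : IntermediateField.adjoin k {x} = ⊤) :
    Transcendental k x ∧ ∃ (fs : Fin (ℓ - 1) → k[X]) (u : K0), Squarefree (∏ i, fs i) ∧
      0 < (∏ i, fs i).natDegree ∧ u ≠ 0 ∧ h = aeval x (prodL fs) * u ^ ℓ := by
  have hℓ2 := hℓ.two_le
  have hx : Transcendental k x := by
    obtain ⟨t, ht, _⟩ := hG.ff
    intro hx
    have h1 : Algebra.IsAlgebraic k (IntermediateField.adjoin k {x}) :=
      IntermediateField.isAlgebraic_adjoin_simple hx.isIntegral
    have h2 : t ∈ IntermediateField.adjoin k {x} := by rw [hgen]; trivial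
    have h3 := h1.isAlgebraic ⟨t, h2⟩
    exact ht (h3.algebraMap (A := K0))
  have hh : h ≠ 0 := by
    rintro rfl
    refine hG.irr 0 ?_ 1 one_pos (by omega) ?_
    · rw [map_zero, zero_pow (by omega)]
    · rw [pow_one]; exact zero_mem _
  obtain ⟨N, D, hN, hD, hND⟩ := exists_quot' hgen h hh
  obtain ⟨fs, g, hf, hg, hfg⟩ := decompL (ℓ - 1) (by omega) (N * D ^ (ℓ - 1))
    (mul_ne_zero hN (pow_ne_zero _ hD))
  have hℓ1 : ℓ - 1 + 1 = ℓ := by omega
  rw [hℓ1] at hfg
  have hinj : ∀ p : k[X], p ≠ 0 → aeval x p ≠ 0 := by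
    intro p hp h0
    exact hp ((transcendental_iff.1 hx) p h0)
  have hDx := hinj D hD
  have hgx := hinj g hg
  obtain ⟨u, hu⟩ : ∃ u : K0, u = aeval x g / aeval x D := ⟨_, rfl⟩
  have hu0 : u ≠ 0 := by
    rw [hu]
    exact div_ne_zero hgx hDx
  have hhu : h = aeval x (prodL fs) * u ^ ℓ := by
    have h1 : aeval x N * aeval x D ^ (ℓ - 1) = aeval x (prodL fs) * aeval x g ^ ℓ := by
      rw [← map_pow, ← map_mul, hfg, map_mul, map_pow]
    have h2 : aeval x D ^ ℓ = aeval x D ^ (ℓ - 1) * aeval x D := by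
      rw [← pow_succ, hℓ1]
    rw [hu, hND, div_pow, ← mul_div_assoc, ← h1, h2]
    field_simp
  have hdeg0 : (∏ i, fs i).natDegree ≠ 0 := by
    intro h0
    have hprod0 : ∏ i, fs i ≠ 0 := hf.ne_zero
    have hfs0 : ∀ i, fs i ≠ 0 := fun i => (Finset.prod_ne_zero_iff.1 hprod0) i (Finset.mem_univ i)
    have hdi : ∀ i, (fs i).natDegree = 0 := by
      intro i
      have h1 := natDegree_prod (Finset.univ : Finset (Fin (ℓ - 1))) fs fun i _ => hfs0 i
      rw [h0] at h1
      exact (Finset.sum_eq_zero_iff.1 h1.symm) i (Finset.mem_univ i)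
    have hpd : (prodL fs).natDegree = 0 := by
      rw [prodL, natDegree_prod _ _ fun i _ => pow_ne_zero _ (hfs0 i)]
      refine Finset.sum_eq_zero fun i _ => ?_
      rw [natDegree_pow, hdi i, mul_zero]
    obtain ⟨e, he⟩ : ∃ e : k, prodL fs = C e := ⟨_, eq_C_of_natDegree_eq_zero hpd⟩
    obtain ⟨s, hs⟩ := IsAlgClosed.exists_pow_nat_eq (algebraMap k (AlgebraicClosure K0) e)
      (n := ℓ) (by omega)
    have hsa : IsAlgebraic k s := IsAlgebraic.of_pow (n := ℓ) (by omega)
      (by rw [hs]; exact isAlgebraic_algebraMap e)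
    refine hG.irr (s * algebraMap K0 (AlgebraicClosure K0) u) ?_ 1 one_pos (by omega) ?_
    · rw [mul_pow, hs, hhu, he, aeval_C, map_mul, map_pow, ← IsScalarTower.algebraMap_apply]
    · rw [pow_one]
      exact mul_mem (Subfield.subset_closure (Or.inl hsa))
        (Subfield.subset_closure (Or.inr ⟨u, rfl⟩))
  exact ⟨hx, fs, u, hf, Nat.pos_of_ne_zero hdeg0, hu0, hhu⟩

/-- a value of `f` gives a point -/
theorem crit_valueL {k K0 F : Type} [Field k] [Field K0] [Field F] [Algebra k K0] [Algebra k F]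
    {x u : K0} {f : k[X]} {ℓ : ℕ} (hgen : IntermediateField.adjoin k {x} = ⊤)
    (hx : Transcendental k x) (hu : u ≠ 0) (c a : k) (ha : f.eval a ≠ 0)
    (hsq : ∃ t : F, algebraMap k F (c * f.eval a) = t ^ ℓ) :
    Crit ℓ (aeval x f * u ^ ℓ) c F := by
  obtain ⟨P, φ, h1, h2, h3⟩ := Pool.Agent.MPF.place_eval hgen hx a
  obtain ⟨hfP, hfv⟩ := h3 f
  refine ⟨P, (algebraMap k F).comp φ, fun b => ?_, fun z => ?_, Or.inr ⟨u, ⟨aeval x f, hfP⟩, hu,
    rfl, ?_, ?_⟩⟩
  · obtain ⟨h4, h5⟩ := h1 b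
    exact ⟨h4, by rw [RingHom.comp_apply, h5]⟩
  · rcases h2 z with h4 | h4
    · exact Or.inl (by rw [RingHom.comp_apply, h4, map_zero])
    · exact Or.inr h4
  · rw [RingHom.comp_apply, hfv]
    exact (_root_.map_ne_zero _).2 ha
  · obtain ⟨t, ht⟩ := hsq
    refine ⟨t, ?_⟩
    rw [RingHom.comp_apply, hfv, ← map_mul]
    exact ht

/-- The arithmetic part of block HWL: the values of `c ∏ f_i ^ (i + 1)` are `ℓ`-th powers in `k_v`. -/
def StmtLocPow : Prop :=
  ∀ (k : Type) [Field k] [NumberField k] (ℓ : ℕ), ℓ.Prime → HasMu k ℓ →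
    ∀ fs : Fin (ℓ - 1) → k[X], Squarefree (∏ i, fs i) → 0 < (∏ i, fs i).natDegree →
    ∃ Bad : Set (Pr k), Bad.Finite ∧ ∀ v ∉ Bad, ∀ c : k, c ≠ 0 → ¬ IsRam ℓ v c →
      ∃ a : k, (prodL fs).eval a ≠ 0 ∧
        ∃ t : v.adicCompletion k, algebraMap k (v.adicCompletion k) (c * (prodL fs).eval a) = t ^ ℓ

/-- BLOCK HWL from the arithmetic part -/
theorem hWL_of (hloc : StmtSTL → StmtLocPow) : StmtHWL := by
  intro hLP hST k K₀ _ _ _ _ ℓ hℓ hmu h x hG hgen
  have hℓ2 := hℓ.two_le
  have hh : h ≠ 0 := by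
    rintro rfl
    refine hG.irr 0 ?_ 1 one_pos (by omega) ?_
    · rw [map_zero, zero_pow (by omega)]
    · rw [pow_one]; exact zero_mem _
  obtain ⟨hx, fs, u, hsep, hdeg, hu, hhu⟩ := form_hL hℓ hG hgen
  refine ⟨?_, ?_⟩
  · obtain ⟨Bad, hBad, H⟩ := hloc hST k ℓ hℓ hmu fs hsep hdeg
    refine ⟨Bad, hBad, fun v hv c hc hev => ?_⟩
    obtain ⟨a, ha, hsq⟩ := H v hv c hc hev
    rw [hLP k K₀ (v.adicCompletion k) ℓ hℓ hmu h c hh hc, hhu]
    exact crit_valueL hgen hx hu c a ha hsq
  · have hfs : prodL fs ≠ 0 := by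
      rw [prodL, Finset.prod_ne_zero_iff]
      intro i _
      exact pow_ne_zero _ ((Finset.prod_ne_zero_iff.1 hsep.ne_zero) i (Finset.mem_univ i))
    obtain ⟨a, ha⟩ : ∃ a : k, (prodL fs).eval a ≠ 0 := by
      by_contra hall
      push Not at hall
      exact hfs (Polynomial.funext fun r => by rw [hall r, eval_zero])
    refine ⟨Units.mk0 ((prodL fs).eval a ^ (ℓ - 1)) (pow_ne_zero _ ha), fun F _ _ => ?_⟩
    rw [hLP k K₀ F ℓ hℓ hmu h _ hh (Units.ne_zero _), hhu]
    refine crit_valueL hgen hx hu _ a ha ⟨algebraMap k F ((prodL fs).eval a), ?_⟩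
    rw [Units.val_mk0, ← pow_succ, Nat.sub_add_cancel (by omega), map_pow]

end Pool.Agent.MLF
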